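import Pool.Agent.H44.MS.Basics

/-!
# B3: numbers with many prime factors
-/

set_option autoImplicit false

namespace Pool.Agent.H51.MS

open Finset Real Pool.Agent.H44.MS

theorem pf_B3 (hGV : T_GV) : T_B3 := by
  obtain ⟨C, hC, h⟩ := hGV
  refine ⟨C, hC, fun z N K hz hzN => ?_⟩
  have h1 := h (13 / 10) (by norm_num) (by norm_num) z N hz hzN
  have h2 : (13 / 10 - 1 : ℝ) = 3 / 10 := by norm_num
  rw [h2] at h1
  have h3 : ∀ m ∈ Icc 1 N, ic (Good 0 z m ∧ K < Om z m) ≤
      ic (Good 0 z m) * (13 / 10 : ℝ) ^ Om z m * (10 / 13 : ℝ) ^ K := by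
    intro m _
    rw [ic_and, mul_assoc]
    refine mul_le_mul_of_nonneg_left ?_ (ic_nonneg _)
    by_cases hK : K < Om z m
    · rw [ic_pos hK]
      have h4 : (13 / 10 : ℝ) ^ Om z m = (13 / 10 : ℝ) ^ (Om z m - K) * (13 / 10 : ℝ) ^ K := by
        rw [← pow_add, Nat.sub_add_cancel hK.le]
      have h5 : (13 / 10 : ℝ) ^ K * (10 / 13 : ℝ) ^ K = 1 := by
        rw [← mul_pow]
        norm_num
      rw [h4, mul_assoc, h5, mul_one]
      exact one_le_pow₀ (by norm_num)
    · rw [ic_neg hK]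
      positivity
  refine (sum_le_sum h3).trans ?_
  rw [← sum_mul]
  exact mul_le_mul_of_nonneg_right h1 (by positivity)

end Pool.Agent.H51.MS
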