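import Pool.Agent.H44.MS.Basics

/-!
# RES: the final statement
-/

set_option autoImplicit false

namespace Pool.Agent.H51.MS

open Finset Real Pool.Agent.H44.MS

/-- a set is null if it is contained, up to finitely many elements, in sets of small upper density -/
theorem res_lim (A : ℕ → Prop) (h : ∀ ε : ℝ, 0 < ε → ∃ B : ℕ → Prop,
    (∃ n₁ : ℕ, ∀ n, n₁ ≤ n → A n → B n) ∧
    ∃ N₂ : ℕ, ∀ N : ℕ, N₂ ≤ N → ∑ n ∈ range N, ic (B n) ≤ ε * N) :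
    Filter.Tendsto (fun N : ℕ => (∑ n ∈ range N, ic (A n)) / (N : ℝ)) Filter.atTop (nhds 0) := by
  rw [Metric.tendsto_atTop]
  intro ε hε
  obtain ⟨B, ⟨n₁, hn₁⟩, N₂, hN₂⟩ := h (ε / 3) (by positivity)
  obtain ⟨M, hM⟩ := exists_nat_gt (3 * (n₁ : ℝ) / ε)
  refine ⟨max N₂ (M + 1), fun N hN => ?_⟩
  have h1 : N₂ ≤ N := (le_max_left _ _).trans hN
  have h2 : M + 1 ≤ N := (le_max_right _ _).trans hN
  have hN0 : (0 : ℝ) < N := by
    have : 0 < N := by omega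
    exact_mod_cast this
  have hMN : (M : ℝ) ≤ N := by
    have : M ≤ N := by omega
    exact_mod_cast this
  have h3 : 3 * (n₁ : ℝ) < ε * N := by
    rw [div_lt_iff₀ hε] at hM
    nlinarith
  have h4 : ∀ n ∈ range N, ic (A n) ≤ ic (n < n₁) + ic (B n) := by
    intro n _
    by_cases hn : n < n₁
    · rw [ic_pos hn]
      have := ic_le_one (A n)
      have := ic_nonneg (B n)
      linarith
    · rw [ic_neg hn, zero_add]
      exact ic_mono (hn₁ n (not_lt.mp hn))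
  have h5 : ∑ n ∈ range N, ic (n < n₁) ≤ n₁ := by
    have : ∀ n ∈ range N, ic (n < n₁) = if n < n₁ then 1 else 0 := fun n _ => ic_eq_ite _
    rw [sum_congr rfl this, ← sum_filter, sum_const, nsmul_eq_mul, mul_one]
    have h6 : ((range N).filter fun n => n < n₁) ⊆ range n₁ := by
      intro n hn
      exact mem_range.mpr (mem_filter.mp hn).2
    have := card_le_card h6
    rw [card_range] at this
    exact_mod_cast this
  have h7 : ∑ n ∈ range N, ic (A n) ≤ n₁ + ε / 3 * N := by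
    refine (sum_le_sum h4).trans ?_
    rw [sum_add_distrib]
    exact add_le_add h5 (hN₂ N h1)
  have h8 : 0 ≤ ∑ n ∈ range N, ic (A n) := sum_nonneg fun n _ => ic_nonneg _
  rw [Real.dist_eq, sub_zero, abs_of_nonneg (by positivity), div_lt_iff₀ hN0]
  nlinarith

theorem pf_RES (hUP : T_UP) (hLOW : T_LOW) : T_RES := by
  intro ψ hψ
  refine ⟨res_lim _ fun ε hε => ?_, res_lim _ fun ε hε => ?_⟩
  · obtain ⟨C, hC, N₂, hN₂⟩ := hUP ε hε
    obtain ⟨n₁, hn₁⟩ := Filter.eventually_atTop.mp (hψ.eventually_ge_atTop C)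
    refine ⟨fun n => (n % 4 ≠ 0 ∧ n % 8 ≠ 7) ∧ ¬ ∃ x₁ x₂ x₃ : ℤ, x₁ ^ 2 + x₂ ^ 2 + x₃ ^ 2 = n ∧
      |(x₃ : ℝ)| ≤ C * √(Real.log n), ⟨n₁, ?_⟩, N₂, hN₂⟩
    rintro n hn ⟨h1, h2⟩
    refine ⟨h1, ?_⟩
    rintro ⟨x₁, x₂, x₃, h3, h4⟩
    exact h2 ⟨x₁, x₂, x₃, h3, h4.trans (mul_le_mul_of_nonneg_right (hn₁ n hn) (Real.sqrt_nonneg _))⟩
  · obtain ⟨c, hc, N₂, hN₂⟩ := hLOW ε hε
    obtain ⟨n₁, hn₁⟩ := Filter.eventually_atTop.mp (hψ.eventually_ge_atTop (1 / c))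
    refine ⟨fun n => ∃ x₁ x₂ x₃ : ℤ, x₁ ^ 2 + x₂ ^ 2 + x₃ ^ 2 = n ∧
      |(x₃ : ℝ)| ≤ c * √(Real.log n), ⟨n₁, ?_⟩, N₂, hN₂⟩
    rintro n hn ⟨x₁, x₂, x₃, h3, h4⟩
    refine ⟨x₁, x₂, x₃, h3, h4.trans ?_⟩
    have h5 := hn₁ n hn
    have h6 : 0 < ψ n := lt_of_lt_of_le (by positivity) h5
    rw [div_le_iff₀ h6]
    rw [div_le_iff₀ hc] at h5
    have h7 := Real.sqrt_nonneg (Real.log n)
    nlinarith

end Pool.Agent.H51.MS
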